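import Pool.Agent.W256.Growth
import Pool.Agent.W254.HP.Prod
import Pool.Agent.H297R2.InBakerThm

set_option autoImplicit false

/-!
# The Hilbert function of a tuple of logarithms
-/

namespace Pool.Agent.TH379.HF

open Module
open Pool.Agent.H301R2.SSE (QB mem_QB Lt Lt_one Lt_log)
open Pool.Agent.W256 (growth_of)
open Pool.Agent.H297R2 (baker_inhom)

theorem half_mul (v : ℕ) : v / 2 * v = v ^ 2 / 4 + v / 2 * (v / 2) := by
  rcases Nat.even_or_odd' v with ⟨k, rfl | rfl⟩
  · have h1 : 2 * k / 2 = k := by omega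
    have h2 : (2 * k) ^ 2 / 4 = k * k := by
      rw [show (2 * k) ^ 2 = 4 * (k * k) by ring]; omega
    rw [h1, h2]; ring
  · have h1 : (2 * k + 1) / 2 = k := by omega
    have h2 : (2 * k + 1) ^ 2 / 4 = k * k + k := by
      rw [show (2 * k + 1) ^ 2 = 4 * (k * k + k) + 1 by ring]; omega
    rw [h1, h2]; ring

theorem fd_mul (U V : Submodule QB ℂ) [FiniteDimensional QB U] [FiniteDimensional QB V] :
    FiniteDimensional QB (U * V : Submodule QB ℂ) :=
  Module.Finite.iff_fg.mpr (Submodule.FG.mul (Module.Finite.iff_fg.mp inferInstance)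
    (Module.Finite.iff_fg.mp inferInstance))

theorem fd_pow (V : Submodule QB ℂ) [FiniteDimensional QB V] (m : ℕ) :
    FiniteDimensional QB (V ^ m : Submodule QB ℂ) :=
  Module.Finite.iff_fg.mpr (Submodule.FG.pow (Module.Finite.iff_fg.mp inferInstance) m)

/-- **Expansion.** Multiplication by a space of linear forms in logarithms. -/
theorem expand (U V : Submodule QB ℂ) [FiniteDimensional QB U] [FiniteDimensional QB V]
    (hV : V ≤ Lt) (hV0 : V ≠ ⊥) (h : finrank QB V ≤ 2 * finrank QB U + 1) :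
    finrank QB U + finrank QB V ^ 2 / 4 ≤ finrank QB (U * V : Submodule QB ℂ) := by
  have hac : IsAlgClosed QB := (algebraicClosure.isAlgClosure ℚ ℂ).isAlgClosed
  have key := growth_of U V hV0 (finrank QB V / 2) (by omega) (by
    intro Y hYX hYs
    have : FiniteDimensional QB Y := Submodule.finiteDimensional_of_le hYX
    have := fd_mul Y V
    have h := Pool.Agent.W254.HP.product_le Y V (Y * V) hV
      (fun x hx w hw => Submodule.mul_mem_mul hx hw)
    rwa [hYs] at h)
  have h3 := half_mul (finrank QB V)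
  omega

theorem expand_pow (U V : Submodule QB ℂ) [FiniteDimensional QB U] [FiniteDimensional QB V]
    (hV : V ≤ Lt) (hV0 : V ≠ ⊥) (h : finrank QB V ≤ 2 * finrank QB U + 1) (m : ℕ) :
    finrank QB U + m * (finrank QB V ^ 2 / 4) ≤ finrank QB (U * V ^ m : Submodule QB ℂ) := by
  induction m with
  | zero => rw [pow_zero, mul_one]; omega
  | succ m ih =>
    have := fd_pow V m
    have := fd_mul U (V ^ m)
    have h2 : finrank QB U ≤ finrank QB (U * V ^ m : Submodule QB ℂ) :=
      le_trans (Nat.le_add_right _ _) ih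
    have h1 := expand (U * V ^ m) V hV hV0 (by omega)
    rw [mul_assoc, ← pow_succ] at h1
    rw [Nat.add_mul, one_mul]
    omega

/-- the space spanned by `1` and the `l i` -/
noncomputable def VV {N : ℕ} (l : Fin N → ℂ) : Submodule QB ℂ :=
  Submodule.span QB ({1} ∪ Set.range l)

instance {N : ℕ} (l : Fin N → ℂ) : FiniteDimensional QB (VV l) :=
  FiniteDimensional.span_of_finite QB ((Set.finite_singleton _).union (Set.finite_range _))

theorem VV_le {N : ℕ} (l : Fin N → ℂ) (halg : ∀ j, IsAlgebraic ℚ (Complex.exp (l j))) :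
    VV l ≤ Lt := by
  rw [VV, Submodule.span_le]
  rintro z (hz | ⟨j, rfl⟩)
  · rw [Set.mem_singleton_iff] at hz
    rw [hz]
    exact Lt_one
  · exact Lt_log (halg j)

theorem one_mem_VV {N : ℕ} (l : Fin N → ℂ) : (1 : ℂ) ∈ VV l :=
  Submodule.subset_span (Or.inl rfl)

theorem finrank_VV {N : ℕ} (l : Fin N → ℂ) (halg : ∀ j, IsAlgebraic ℚ (Complex.exp (l j)))
    (hli : LinearIndependent ℚ l) : finrank QB (VV l) = N + 1 := by
  have hlin : LinearIndependent QB (Fin.cons 1 l : Fin (N + 1) → ℂ) := by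
    rw [Fintype.linearIndependent_iff]
    intro c hc
    rw [Fin.sum_univ_succ] at hc
    simp only [Fin.cons_zero, Fin.cons_succ] at hc
    have h2 := baker_inhom l halg hli (c 0 : ℂ) (mem_QB.mp (c 0).2)
      (fun j => (c j.succ : ℂ)) (fun j => mem_QB.mp (c j.succ).2) (by
        rw [← hc]
        congr 1
        rw [Algebra.smul_def, mul_one]
        rfl)
    intro i
    refine Fin.cases ?_ (fun j => ?_) i
    · exact_mod_cast h2.1
    · exact_mod_cast h2.2 j
  have hcons : Set.range (Fin.cons 1 l : Fin (N + 1) → ℂ) = {1} ∪ Set.range l := by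
    rw [Fin.range_cons, Set.singleton_union]
  rw [VV, ← hcons, finrank_span_eq_card hlin, Fintype.card_fin]

/-- the values of the polynomials of degree at most `m` -/
noncomputable def Val {N : ℕ} (l : Fin N → ℂ) (m : ℕ) : Submodule QB ℂ :=
  (MvPolynomial.restrictTotalDegree (Fin N) QB m).map (MvPolynomial.aeval l).toLinearMap

theorem mem_Val {N : ℕ} (l : Fin N → ℂ) (m : ℕ) (z : ℂ) :
    z ∈ Val l m ↔ ∃ P : MvPolynomial (Fin N) QB, P.totalDegree ≤ m ∧ MvPolynomial.aeval l P = z := by
  rw [Val, Submodule.mem_map]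
  constructor
  · rintro ⟨P, hP, rfl⟩
    exact ⟨P, (MvPolynomial.mem_restrictTotalDegree _ _ _).mp hP, rfl⟩
  · rintro ⟨P, hP, rfl⟩
    exact ⟨P, (MvPolynomial.mem_restrictTotalDegree _ _ _).mpr hP, rfl⟩

theorem VV_le_Val {N : ℕ} (l : Fin N → ℂ) : VV l ≤ Val l 1 := by
  rw [VV, Submodule.span_le]
  rintro z (hz | ⟨j, rfl⟩)
  · rw [Set.mem_singleton_iff] at hz
    rw [hz]
    exact (mem_Val l 1 1).mpr ⟨1, by simp, by simp⟩
  · exact (mem_Val l 1 _).mpr ⟨MvPolynomial.X j, (MvPolynomial.totalDegree_X j).le, by simp⟩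

theorem pow_le_Val {N : ℕ} (l : Fin N → ℂ) (m : ℕ) : VV l ^ m ≤ Val l m := by
  induction m with
  | zero =>
    rw [pow_zero, Submodule.one_le]
    exact (mem_Val l 0 1).mpr ⟨1, by simp, by simp⟩
  | succ m ih =>
    rw [pow_succ, Submodule.mul_le]
    intro a ha b hb
    obtain ⟨P, hP, rfl⟩ := (mem_Val l m a).mp (ih ha)
    obtain ⟨Q, hQ, rfl⟩ := (mem_Val l 1 b).mp (VV_le_Val l hb)
    refine (mem_Val l (m + 1) _).mpr ⟨P * Q, ?_, map_mul _ _ _⟩
    exact (MvPolynomial.totalDegree_mul P Q).trans (add_le_add hP hQ)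

instance {N : ℕ} (l : Fin N → ℂ) (m : ℕ) : FiniteDimensional QB (Val l m) := by
  unfold Val
  infer_instance

/-- **The Hilbert function.** -/
theorem hilbert {N : ℕ} (l : Fin N → ℂ) (halg : ∀ j, IsAlgebraic ℚ (Complex.exp (l j)))
    (hli : LinearIndependent ℚ l) (m : ℕ) :
    N + 1 + m * ((N + 1) ^ 2 / 4) ≤ finrank QB (Val l (m + 1)) := by
  have h1 := finrank_VV l halg hli
  have hne : VV l ≠ ⊥ := by
    intro h0
    rw [h0, finrank_bot] at h1
    omega
  have h2 := expand_pow (VV l) (VV l) (VV_le l halg) hne (by omega) m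
  rw [h1, ← pow_succ'] at h2
  exact h2.trans (Submodule.finrank_mono (pow_le_Val l (m + 1)))

theorem finrank_restrict (N m : ℕ) :
    finrank QB (MvPolynomial.restrictTotalDegree (Fin N) QB m) ≤ (N + m).choose m := by
  classical
  set T := (Finset.univ : Finset (Option (Fin N))).finsuppAntidiag m with hT
  have hcard : T.card = (N + m).choose m := by
    rw [hT, Finset.card_finsuppAntidiag_nat_eq_choose]
    rw [Finset.card_univ, Fintype.card_option, Fintype.card_fin]
    rw [show N + 1 + m - 1 = N + m by omega]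
  have hb := MvPolynomial.basisRestrictSupport QB {n : Fin N →₀ ℕ | (n.sum fun _ e => e) ≤ m}
  have hfr : finrank QB (MvPolynomial.restrictTotalDegree (Fin N) QB m) =
      Nat.card {n : Fin N →₀ ℕ | (n.sum fun _ e => e) ≤ m} :=
    Module.finrank_eq_nat_card_basis hb
  rw [hfr, ← hcard, ← Fintype.card_coe, ← Nat.card_eq_fintype_card]
  apply Nat.card_le_card_of_injective
    (fun s : {n : Fin N →₀ ℕ | (n.sum fun _ e => e) ≤ m} =>
      (⟨s.1.optionElim (m - (s.1.sum fun _ e => e)), by
      rw [hT, Finset.mem_finsuppAntidiag]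
      refine ⟨?_, Finset.subset_univ _⟩
      rw [Fintype.sum_option]
      simp only [Finsupp.optionElim_apply_none, Finsupp.optionElim_apply_some]
      have h1 : (s.1.sum fun _ e => e) = ∑ i, s.1 i := Finsupp.sum_fintype _ _ (fun _ => rfl)
      have h2 : (s.1.sum fun _ e => e) ≤ m := s.2
      omega⟩ : T))
  intro s s' h
  apply Subtype.ext
  ext i
  have h1 := congrArg (fun t : T => (t : Option (Fin N) →₀ ℕ) (some i)) h
  simpa using h1

/-- the space of the relations of degree at most `m` -/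
noncomputable def Rel {N : ℕ} (l : Fin N → ℂ) (m : ℕ) : Submodule QB (MvPolynomial (Fin N) QB) :=
  MvPolynomial.restrictTotalDegree (Fin N) QB m ⊓ LinearMap.ker (MvPolynomial.aeval l).toLinearMap

theorem gen_dim {K M L : Type*} [Field K] [AddCommGroup M] [Module K M] [AddCommGroup L]
    [Module K L] (R : Submodule K M) [FiniteDimensional K R] (f : M →ₗ[K] L) :
    finrank K (R ⊓ LinearMap.ker f : Submodule K M) + finrank K (R.map f) = finrank K R := by
  have h1 := LinearMap.finrank_range_add_finrank_ker (f.domRestrict R)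
  have h2 : LinearMap.range (f.domRestrict R) = R.map f := LinearMap.range_domRestrict _ _
  have h3 : finrank K (LinearMap.ker (f.domRestrict R)) =
      finrank K (R ⊓ LinearMap.ker f : Submodule K M) := by
    rw [LinearMap.ker_domRestrict]
    have h4 : R ⊓ LinearMap.ker f = (Submodule.comap R.subtype (LinearMap.ker f)).map R.subtype := by
      rw [Submodule.map_comap_subtype]
    rw [h4]
    exact (LinearEquiv.finrank_eq (Submodule.equivMapOfInjective R.subtype
      R.injective_subtype _))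
  rw [h2, h3] at h1
  omega

theorem rel_add_val {N : ℕ} (l : Fin N → ℂ) (m : ℕ) :
    finrank QB (Rel l m) + finrank QB (Val l m) ≤ (N + m).choose m := by
  refine le_trans (le_of_eq ?_) (finrank_restrict N m)
  exact gen_dim (MvPolynomial.restrictTotalDegree (Fin N) QB m)
    (MvPolynomial.aeval l : MvPolynomial (Fin N) QB →ₐ[QB] ℂ).toLinearMap

/-- **Relations.** -/
theorem relations {N : ℕ} (l : Fin N → ℂ) (halg : ∀ j, IsAlgebraic ℚ (Complex.exp (l j)))
    (hli : LinearIndependent ℚ l) (m : ℕ) :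
    finrank QB (Rel l (m + 1)) + (N + 1 + m * ((N + 1) ^ 2 / 4)) ≤ (N + (m + 1)).choose (m + 1) :=
  (Nat.add_le_add_left (hilbert l halg hli m) _).trans (rel_add_val l (m + 1))

theorem quadrics {N : ℕ} (l : Fin N → ℂ) (halg : ∀ j, IsAlgebraic ℚ (Complex.exp (l j)))
    (hli : LinearIndependent ℚ l) : finrank QB (Rel l 2) ≤ N ^ 2 / 4 := by
  have h := relations l halg hli 1
  rw [show N + (1 + 1) = N + 2 by rfl, show (1 + 1 : ℕ) = 2 by rfl] at h
  have h2 : (N + 2).choose 2 = (N + 2) * (N + 1) / 2 := by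
    rw [Nat.choose_two_right]
    rfl
  rw [h2] at h
  rcases Nat.even_or_odd' N with ⟨k, rfl | rfl⟩
  · have e1 : (2 * k + 2) * (2 * k + 1) / 2 = (k + 1) * (2 * k + 1) := by
      rw [show (2 * k + 2) * (2 * k + 1) = 2 * ((k + 1) * (2 * k + 1)) by ring]; omega
    have e2 : (2 * k + 1) ^ 2 / 4 = k * k + k := by
      rw [show (2 * k + 1) ^ 2 = 4 * (k * k + k) + 1 by ring]; omega
    have e3 : (2 * k) ^ 2 / 4 = k * k := by
      rw [show (2 * k) ^ 2 = 4 * (k * k) by ring]; omega
    rw [e1, e2] at h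
    rw [e3]
    nlinarith
  · have e1 : (2 * k + 1 + 2) * (2 * k + 1 + 1) / 2 = (2 * k + 3) * (k + 1) := by
      rw [show (2 * k + 1 + 2) * (2 * k + 1 + 1) = 2 * ((2 * k + 3) * (k + 1)) by ring]; omega
    have e2 : (2 * k + 1 + 1) ^ 2 / 4 = (k + 1) * (k + 1) := by
      rw [show (2 * k + 1 + 1) ^ 2 = 4 * ((k + 1) * (k + 1)) by ring]; omega
    have e3 : (2 * k + 1) ^ 2 / 4 = k * k + k := by
      rw [show (2 * k + 1) ^ 2 = 4 * (k * k + k) + 1 by ring]; omega
    rw [e1, e2] at h
    rw [e3]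
    nlinarith

end Pool.Agent.TH379.HF
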