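import Pool.Agent.TH379.HF.Core
import Pool.Agent.H297R2.Density

set_option autoImplicit false

/-!
# Logarithms in spaces of small doubling
-/

namespace Pool.Agent.TH379.HF

open Module
open Pool.Agent.H301R2.SSE (QB mem_QB Lt Lt_one Lt_log)

theorem self_mul (U : Submodule QB ℂ) [FiniteDimensional QB U] :
    finrank QB U ≤ finrank QB (U * U : Submodule QB ℂ) := by
  have := fd_mul U U
  by_cases hU : U = ⊥
  · rw [hU, finrank_bot]
    exact Nat.zero_le _
  · obtain ⟨u, huU, hu⟩ := Submodule.exists_mem_ne_zero_of_ne_bot hU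
    have h1 : U.map (LinearMap.mulLeft QB u) ≤ U * U := by
      rintro _ ⟨x, hx, rfl⟩
      exact Submodule.mul_mem_mul huU hx
    have h2 : finrank QB (U.map (LinearMap.mulLeft QB u)) = finrank QB U :=
      LinearEquiv.finrank_eq (Submodule.equivMapOfInjective (LinearMap.mulLeft QB u)
        (fun a b hab => mul_left_cancel₀ hu hab) U).symm
    rw [← h2]
    exact Submodule.finrank_mono h1

/-- **Logarithms in a space of small doubling.** -/
theorem sparse (U : Submodule QB ℂ) [FiniteDimensional QB U] :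
    finrank QB U + finrank QB (U ⊓ Lt : Submodule QB ℂ) ^ 2 / 4 ≤
      finrank QB (U * U : Submodule QB ℂ) := by
  have := fd_mul U U
  have : FiniteDimensional QB (U ⊓ Lt : Submodule QB ℂ) :=
    Submodule.finiteDimensional_of_le inf_le_left
  by_cases hW : (U ⊓ Lt : Submodule QB ℂ) = ⊥
  · rw [hW, finrank_bot]
    simpa using self_mul U
  · have h1 : finrank QB (U ⊓ Lt : Submodule QB ℂ) ≤ finrank QB U :=
      Submodule.finrank_mono inf_le_left
    refine (expand U (U ⊓ Lt) inf_le_right hW (by omega)).trans (Submodule.finrank_mono ?_)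
    exact mul_le_mul' le_rfl inf_le_left

theorem one_mem_Val {t : ℕ} (θ : Fin t → ℂ) (m : ℕ) : (1 : ℂ) ∈ Val θ m :=
  (mem_Val θ m 1).mpr ⟨1, by simp, by simp⟩

theorem Val_mul {t : ℕ} (θ : Fin t → ℂ) (m k : ℕ) : Val θ m * Val θ k ≤ Val θ (m + k) := by
  rw [Submodule.mul_le]
  intro a ha b hb
  obtain ⟨P, hP, rfl⟩ := (mem_Val θ m a).mp ha
  obtain ⟨Q, hQ, rfl⟩ := (mem_Val θ k b).mp hb
  exact (mem_Val θ (m + k) _).mpr ⟨P * Q, (MvPolynomial.totalDegree_mul P Q).trans
    (add_le_add hP hQ), map_mul _ _ _⟩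

theorem VV_le_of {n : ℕ} (l : Fin n → ℂ) (U : Submodule QB ℂ) (h1 : (1 : ℂ) ∈ U)
    (hl : ∀ j, l j ∈ U) : VV l ≤ U := by
  rw [VV, Submodule.span_le]
  rintro z (hz | ⟨j, rfl⟩)
  · rw [Set.mem_singleton_iff] at hz
    rw [hz]
    exact h1
  · exact hl j

/-- general form -/
theorem in_space {n : ℕ} (l : Fin n → ℂ) (halg : ∀ j, IsAlgebraic ℚ (Complex.exp (l j)))
    (hli : LinearIndependent ℚ l) (U Z : Submodule QB ℂ) [FiniteDimensional QB U]
    [FiniteDimensional QB Z] (h1 : (1 : ℂ) ∈ U) (hl : ∀ j, l j ∈ U) (hZ : U * U ≤ Z) :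
    finrank QB U + (n + 1) ^ 2 / 4 ≤ finrank QB Z ∧ n + 1 ≤ finrank QB U := by
  have h2 := finrank_VV l halg hli
  have h3 := VV_le_of l U h1 hl
  have h4 : n + 1 ≤ finrank QB U := by
    rw [← h2]
    exact Submodule.finrank_mono h3
  have hne : VV l ≠ ⊥ := by
    intro h0
    rw [h0, finrank_bot] at h2
    omega
  have h5 := expand U (VV l) (VV_le l halg) hne (by omega)
  rw [h2] at h5
  exact ⟨h5.trans (Submodule.finrank_mono ((mul_le_mul' le_rfl h3).trans hZ)), h4⟩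

/-- **Polynomials of degree at most `m` in `t` numbers.** -/
theorem poly_values {t n : ℕ} (θ : Fin t → ℂ) (m : ℕ) (l : Fin n → ℂ)
    (halg : ∀ j, IsAlgebraic ℚ (Complex.exp (l j))) (hli : LinearIndependent ℚ l)
    (hl : ∀ j, ∃ P : MvPolynomial (Fin t) QB, P.totalDegree ≤ m ∧ MvPolynomial.aeval θ P = l j) :
    finrank QB (Val θ m) + (n + 1) ^ 2 / 4 ≤ finrank QB (Val θ (2 * m)) ∧
      (n + 1) + (n + 1) ^ 2 / 4 ≤ (t + 2 * m).choose t := by
  have h1 := in_space l halg hli (Val θ m) (Val θ (2 * m)) (one_mem_Val θ m)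
    (fun j => (mem_Val θ m _).mpr (hl j)) (by rw [two_mul]; exact Val_mul θ m m)
  refine ⟨h1.1, ?_⟩
  have h2 := rel_add_val θ (2 * m)
  have h3 : (t + 2 * m).choose (2 * m) = (t + 2 * m).choose t := Nat.choose_symm_add.symm
  omega

/-- powers of one number -/
noncomputable def P1 (θ : ℂ) (m : ℕ) : Submodule QB ℂ :=
  Submodule.span QB (Set.range fun k : Fin (m + 1) => θ ^ (k : ℕ))

instance (θ : ℂ) (m : ℕ) : FiniteDimensional QB (P1 θ m) :=
  FiniteDimensional.span_of_finite QB (Set.finite_range _)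

theorem pow_mem_P1 (θ : ℂ) (m k : ℕ) (hk : k ≤ m) : θ ^ k ∈ P1 θ m :=
  Submodule.subset_span ⟨⟨k, Nat.lt_succ_of_le hk⟩, rfl⟩

theorem P1_mul (θ : ℂ) (m : ℕ) : P1 θ m * P1 θ m ≤ P1 θ (2 * m) := by
  rw [P1, P1, Submodule.span_mul_span, Submodule.span_le]
  rintro _ ⟨_, ⟨a, rfl⟩, _, ⟨b, rfl⟩, rfl⟩
  change θ ^ (a : ℕ) * θ ^ (b : ℕ) ∈ P1 θ (2 * m)
  rw [← pow_add]
  exact pow_mem_P1 θ _ _ (by omega)

theorem finrank_P1_le (θ : ℂ) (m : ℕ) : finrank QB (P1 θ m) ≤ m + 1 := by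
  have := finrank_range_le_card (R := QB) (fun k : Fin (m + 1) => θ ^ (k : ℕ))
  rwa [Fintype.card_fin] at this

theorem aeval_mem_P1 (θ : ℂ) (m : ℕ) (P : Polynomial QB) (hP : P.natDegree ≤ m) :
    Polynomial.aeval θ P ∈ P1 θ m := by
  rw [Polynomial.aeval_eq_sum_range' (Nat.lt_succ_of_le hP)]
  refine Submodule.sum_mem _ fun k hk => Submodule.smul_mem _ _ (pow_mem_P1 θ m k ?_)
  exact Nat.lt_succ_iff.mp (Finset.mem_range.mp hk)

/-- powers of a transcendental number are linearly independent -/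
lemma pow_indep {t : ℂ} (ht : Transcendental ℚ t) (N : ℕ) :
    LinearIndependent QB (fun k : Fin N => t ^ (k : ℕ)) := by
  classical
  rw [Fintype.linearIndependent_iff]
  intro c hc k
  set P : Polynomial QB := ∑ k : Fin N, Polynomial.monomial (k : ℕ) (c k) with hPdef
  have hP : Polynomial.aeval t P = 0 := by
    rw [hPdef, map_sum, ← hc]
    apply Finset.sum_congr rfl
    intro i _
    rw [Polynomial.aeval_monomial]
    rfl
  have h0 : P = 0 := by
    by_contra hne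
    have h1 : IsAlgebraic QB t := ⟨P, hne, hP⟩
    have : Algebra.IsAlgebraic ℚ QB := algebraicClosure.isAlgebraic ℚ ℂ
    exact ht (h1.restrictScalars ℚ)
  have h1 : P.coeff (k : ℕ) = c k := by
    rw [hPdef, Polynomial.finsetSum_coeff, Finset.sum_eq_single k]
    · rw [Polynomial.coeff_monomial, if_pos rfl]
    · intro j _ hj
      rw [Polynomial.coeff_monomial, if_neg (fun h => hj (Fin.ext h))]
    · intro h; exact absurd (Finset.mem_univ _) h
  rw [← h1, h0, Polynomial.coeff_zero]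

theorem finrank_P1 (θ : ℂ) (hθ : Transcendental ℚ θ) (m : ℕ) : finrank QB (P1 θ m) = m + 1 := by
  rw [P1, finrank_span_eq_card (pow_indep hθ (m + 1)), Fintype.card_fin]

theorem finrank_P1_alg (θ : ℂ) (hθ : IsAlgebraic ℚ θ) (m : ℕ) : finrank QB (P1 θ m) ≤ 1 := by
  have h3 : P1 θ m ≤ Submodule.span QB (Set.range fun _ : Fin 1 => (1 : ℂ)) := by
    rw [P1, Submodule.span_le]
    rintro _ ⟨k, rfl⟩
    have h4 : θ ^ (k : ℕ) = (⟨θ, mem_QB.mpr hθ⟩ ^ (k : ℕ) : QB) • (1 : ℂ) := by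
      rw [Algebra.smul_def, mul_one]
      rfl
    change θ ^ (k : ℕ) ∈ Submodule.span QB (Set.range fun _ : Fin 1 => (1 : ℂ))
    rw [h4]
    exact Submodule.smul_mem _ _ (Submodule.subset_span ⟨0, rfl⟩)
  have : FiniteDimensional QB (Submodule.span QB (Set.range fun _ : Fin 1 => (1 : ℂ))) :=
    FiniteDimensional.span_of_finite QB (Set.finite_range _)
  refine (Submodule.finrank_mono h3).trans ?_
  have := finrank_range_le_card (R := QB) (fun _ : Fin 1 => (1 : ℂ))
  rwa [Fintype.card_fin] at this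

/-- **Polynomials in one number.** -/
theorem one_number {n : ℕ} (θ : ℂ) (m : ℕ) (l : Fin n → ℂ)
    (halg : ∀ j, IsAlgebraic ℚ (Complex.exp (l j))) (hli : LinearIndependent ℚ l)
    (hl : ∀ j, ∃ P : Polynomial QB, P.natDegree ≤ m ∧ Polynomial.aeval θ P = l j) :
    (n + 1) ^ 2 / 4 ≤ m := by
  have h1 := in_space l halg hli (P1 θ m) (P1 θ (2 * m))
    (by simpa using pow_mem_P1 θ m 0 (Nat.zero_le _))
    (fun j => by obtain ⟨P, hP, h⟩ := hl j; rw [← h]; exact aeval_mem_P1 θ m P hP) (P1_mul θ m)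
  by_cases hθ : IsAlgebraic ℚ θ
  · have h2 := finrank_P1_alg θ hθ m
    have h3 : n = 0 := by omega
    rw [h3]
    exact Nat.zero_le _
  · have h2 := finrank_P1 θ hθ m
    have h3 := finrank_P1_le θ (2 * m)
    omega

end Pool.Agent.TH379.HF
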